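import Mathlib

set_option autoImplicit false

/-!
# Project MX2, part A: the weight near the edge (helper429)
-/

namespace Pool.Agent.N429.MX2A

open MeasureTheory

theorem cube_le {y : ℝ} (hy : 0 ≤ y) : y ^ 3 ≤ 7 * Real.sinh y := by
  have h1 : Real.sinh y = 4 * Real.sinh (y / 3) ^ 3 + 3 * Real.sinh (y / 3) := by
    rw [← Real.sinh_three_mul]
    congr 1
    ring
  have h2 : y / 3 ≤ Real.sinh (y / 3) := Real.self_le_sinh_iff.2 (by positivity)
  have h3 : (y / 3) ^ 3 ≤ Real.sinh (y / 3) ^ 3 := pow_le_pow_left₀ (by positivity) h2 3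
  have h4 : 0 ≤ y / 3 := by positivity
  rw [h1]
  have h5 : 0 ≤ y ^ 3 := by positivity
  have h6 : (y / 3) ^ 3 = y ^ 3 / 27 := by ring
  rw [h6] at h3
  linarith

theorem key {y : ℝ} (hy : 0 < y) :
    (2 * y) ^ 2 * (1 + 2 * y) * Real.cosh y ≤ 74 * (2 * Real.sinh y ^ 2) := by
  have hS : y ≤ Real.sinh y := Real.self_le_sinh_iff.2 hy.le
  have hc := cube_le hy.le
  set S := Real.sinh y with hSd
  have hS0 : 0 < S := hy.trans_le hS
  have hcosh : Real.cosh y ≤ 1 + S := by
    have h1 := Real.cosh_sq y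
    rw [← hSd] at h1
    have h2 := Real.cosh_pos y
    nlinarith
  have h3 : y ^ 3 ≤ 7 * S ^ 2 := by
    by_cases h : 1 ≤ y
    · have : S ≤ S ^ 2 := by nlinarith
      linarith
    · push Not at h
      have h1 : y ^ 3 ≤ y ^ 2 := by nlinarith [sq_nonneg y]
      have h2 : y ^ 2 ≤ S ^ 2 := pow_le_pow_left₀ hy.le hS 2
      nlinarith
  have h4 : y ^ 2 ≤ S ^ 2 := pow_le_pow_left₀ hy.le hS 2
  have h5 : y ^ 2 ≤ 8 * S := by
    have : y ^ 2 ≤ y + y ^ 3 := by nlinarith [sq_nonneg (y - 1), mul_pos hy hy]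
    linarith
  have h6 : y ^ 2 * S ≤ 8 * S ^ 2 := by nlinarith
  have h7 : y ^ 3 * S ≤ 7 * S ^ 2 := by nlinarith
  calc (2 * y) ^ 2 * (1 + 2 * y) * Real.cosh y
      ≤ (2 * y) ^ 2 * (1 + 2 * y) * (1 + S) := by
        apply mul_le_mul_of_nonneg_left hcosh (by positivity)
    _ = 4 * y ^ 2 + 8 * y ^ 3 + 4 * (y ^ 2 * S) + 8 * (y ^ 3 * S) := by ring
    _ ≤ 74 * (2 * S ^ 2) := by linarith

theorem sinh_le_mul {x : ℝ} (hx : 0 ≤ x) : Real.sinh x ≤ x * Real.cosh x := by
  have hm : MonotoneOn (fun x : ℝ => x * Real.cosh x - Real.sinh x) (Set.Ici 0) := by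
    apply monotoneOn_of_deriv_nonneg (convex_Ici 0)
    · fun_prop
    · fun_prop
    · intro y hy
      rw [interior_Ici, Set.mem_Ioi] at hy
      have h : HasDerivAt (fun x : ℝ => x * Real.cosh x - Real.sinh x)
          (1 * Real.cosh y + y * Real.sinh y - Real.cosh y) y :=
        ((hasDerivAt_id y).mul (Real.hasDerivAt_cosh y)).sub (Real.hasDerivAt_sinh y)
      rw [h.deriv]
      have := mul_nonneg hy.le (Real.sinh_nonneg_iff.2 hy.le)
      linarith
  have h := hm (Set.mem_Ici.2 le_rfl) (Set.mem_Ici.2 hx) hx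
  simp only [Real.sinh_zero, zero_mul, sub_zero] at h
  linarith

theorem pointwise {l s u : ℝ} (hl : 0 < l) (hs : 0 < s) (hu : l / 2 ≤ u) (hul : u ≤ l) :
    Real.sinh (s * (l - u)) / (Real.cosh (l * s) - 1) ≤
      74 * ((l - u) / l ^ 2) * (1 / (s * (1 + l * s))) := by
  have hy : 0 < l * s / 2 := by positivity
  have hk := key hy
  have hx0 : 0 ≤ s * (l - u) := mul_nonneg hs.le (by linarith)
  have hxy : s * (l - u) ≤ l * s / 2 := by nlinarith
  have h1 : Real.sinh (s * (l - u)) ≤ s * (l - u) * Real.cosh (l * s / 2) := by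
    refine (sinh_le_mul hx0).trans (mul_le_mul_of_nonneg_left ?_ hx0)
    rw [Real.cosh_le_cosh, abs_of_nonneg hx0, abs_of_nonneg hy.le]
    exact hxy
  have h2 : Real.cosh (l * s) - 1 = 2 * Real.sinh (l * s / 2) ^ 2 := by
    have h3 : l * s = 2 * (l * s / 2) := by ring
    conv_lhs => rw [h3]
    rw [Real.cosh_two_mul, Real.cosh_sq]
    ring
  have hSpos : 0 < Real.sinh (l * s / 2) := Real.sinh_pos_iff.2 hy
  rw [h2]
  have h4 : 2 * (l * s / 2) = l * s := by ring
  rw [h4] at hk
  have h5 : 74 * ((l - u) / l ^ 2) * (1 / (s * (1 + l * s))) =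
      (s * (l - u)) * 74 / ((l * s) ^ 2 * (1 + l * s)) := by
    field_simp
  rw [h5, div_le_div_iff₀ (by positivity) (by positivity)]
  calc Real.sinh (s * (l - u)) * ((l * s) ^ 2 * (1 + l * s))
      ≤ s * (l - u) * Real.cosh (l * s / 2) * ((l * s) ^ 2 * (1 + l * s)) :=
        mul_le_mul_of_nonneg_right h1 (by positivity)
    _ = s * (l - u) * ((l * s) ^ 2 * (1 + l * s) * Real.cosh (l * s / 2)) := by ring
    _ ≤ s * (l - u) * (74 * (2 * Real.sinh (l * s / 2) ^ 2)) :=
        mul_le_mul_of_nonneg_left hk hx0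
    _ = s * (l - u) * 74 * (2 * Real.sinh (l * s / 2) ^ 2) := by ring

theorem core {l δ u : ℝ} (hl : 1 ≤ l) (hδ : 0 < δ) (hδ1 : δ ≤ 1) (hu : l / 2 ≤ u) (hul : u ≤ l) :
    (∫ s in δ..2, Real.sinh (s * (l - u)) / (Real.cosh (l * s) - 1)) ≤
      74 * ((l - u) / l ^ 2) * Real.log (1 + 1 / (l * δ)) := by
  have hl0 : 0 < l := by linarith
  have hδ2 : δ ≤ 2 := by linarith
  have hpos : ∀ s ∈ Set.uIcc δ 2, 0 < s := by
    intro s hs
    rw [Set.uIcc_of_le hδ2] at hs
    exact hδ.trans_le hs.1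
  have hc0 : 0 ≤ 74 * ((l - u) / l ^ 2) := by
    have : 0 ≤ l - u := by linarith
    positivity
  have hint1 : IntervalIntegrable (fun s => Real.sinh (s * (l - u)) / (Real.cosh (l * s) - 1))
      volume δ 2 := by
    apply ContinuousOn.intervalIntegrable
    refine ContinuousOn.div (by fun_prop) (by fun_prop) ?_
    intro s hs
    have h1 : 1 < Real.cosh (l * s) := Real.one_lt_cosh.2 (mul_pos hl0 (hpos s hs)).ne'
    linarith
  have hint2 : IntervalIntegrable (fun s => 1 / (s * (1 + l * s))) volume δ 2 := by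
    apply ContinuousOn.intervalIntegrable
    refine ContinuousOn.div (by fun_prop) (by fun_prop) ?_
    intro s hs
    have := hpos s hs
    positivity
  have hder : ∀ s ∈ Set.uIcc δ 2, HasDerivAt (fun s => Real.log s - Real.log (1 + l * s))
      (1 / (s * (1 + l * s))) s := by
    intro s hs
    have hs0 := hpos s hs
    have h1 : HasDerivAt (fun s : ℝ => 1 + l * s) l s := by
      simpa using ((hasDerivAt_id s).const_mul l).const_add 1
    have h2 := (Real.hasDerivAt_log hs0.ne').sub (h1.log (by positivity))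
    have h3 : s⁻¹ - l / (1 + l * s) = 1 / (s * (1 + l * s)) := by
      field_simp
      ring
    rw [h3] at h2
    exact h2
  have hI : ∫ s in δ..2, 1 / (s * (1 + l * s)) =
      (Real.log 2 - Real.log (1 + l * 2)) - (Real.log δ - Real.log (1 + l * δ)) :=
    intervalIntegral.integral_eq_sub_of_hasDerivAt hder hint2
  have hle : (Real.log 2 - Real.log (1 + l * 2)) - (Real.log δ - Real.log (1 + l * δ)) ≤
      Real.log (1 + 1 / (l * δ)) := by
    have h1 : Real.log (1 + 1 / (l * δ)) = Real.log (1 + l * δ) - Real.log l - Real.log δ := by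
      have h2 : 1 + 1 / (l * δ) = (1 + l * δ) / (l * δ) := by
        field_simp
        ring
      rw [h2, Real.log_div (by positivity) (by positivity),
        Real.log_mul hl0.ne' hδ.ne']
      ring
    rw [h1]
    have h2 : Real.log 2 + Real.log l ≤ Real.log (1 + l * 2) := by
      rw [← Real.log_mul (by norm_num) hl0.ne']
      apply Real.log_le_log (by positivity)
      linarith
    linarith
  calc (∫ s in δ..2, Real.sinh (s * (l - u)) / (Real.cosh (l * s) - 1))
      ≤ ∫ s in δ..2, 74 * ((l - u) / l ^ 2) * (1 / (s * (1 + l * s))) := by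
        apply intervalIntegral.integral_mono_on hδ2 hint1 (hint2.const_mul _)
        intro s hs
        exact pointwise hl0 (hδ.trans_le hs.1) hu hul
    _ = 74 * ((l - u) / l ^ 2) * ∫ s in δ..2, 1 / (s * (1 + l * s)) := by
        rw [intervalIntegral.integral_const_mul]
    _ ≤ _ := by
        rw [hI]
        exact mul_le_mul_of_nonneg_left hle hc0

end Pool.Agent.N429.MX2A
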