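import Mathlib
import Pool.Agent.N964.MX.Defs2
import Pool.Agent.N429.MX2Acore

set_option autoImplicit false

/-!
# Project MX2, part A: the weight near the edge (helper429)
-/

namespace Pool.Agent.N429.MX2A

open Pool.Agent.N964.MX

/-- the weight near the edge -/
theorem edge : S_edge :=
  ⟨74, by norm_num, fun _ _ _ hl hδ hδ1 hu hul => core hl hδ hδ1 hu hul⟩

end Pool.Agent.N429.MX2A
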