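import Pool.Agent.TH560.QT.Att

/-!
Project QF (helper880), leaf L4 (helper429): the primitive character attached to a squarefree
number.
-/

set_option autoImplicit false

namespace Pool.Agent.N429.QFChar

open Pool.Agent.TH560.QT

/-- the Kronecker character modulo `4 |k|` as a multiplicative function on naturals -/
def ker (k : ℤ) (n : ℕ) : ℤ := if n.Coprime (4 * k.natAbs) then jacobiSym k n else 0

theorem odd_of_cop {k : ℤ} {n : ℕ} (h : n.Coprime (4 * k.natAbs)) : Odd n := by
  rw [Nat.odd_iff]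
  rcases Nat.mod_two_eq_zero_or_one n with h0 | h0
  · exfalso
    have h2 : 2 ∣ n := Nat.dvd_of_mod_eq_zero h0
    have h3 : 2 ∣ 4 * k.natAbs := Dvd.dvd.mul_right (by norm_num) _
    have := Nat.dvd_gcd h2 h3
    rw [h] at this
    omega
  · exact h0

theorem ker_mod (k : ℤ) {a b : ℕ} (h : a % (4 * k.natAbs) = b % (4 * k.natAbs)) :
    ker k a = ker k b := by
  have hc : a.Coprime (4 * k.natAbs) ↔ b.Coprime (4 * k.natAbs) := by
    rw [Nat.coprime_iff_gcd_eq_one, Nat.coprime_iff_gcd_eq_one,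
      Nat.ModEq.gcd_eq (show a ≡ b [MOD 4 * k.natAbs] from h)]
  unfold ker
  by_cases ha : a.Coprime (4 * k.natAbs)
  · rw [if_pos ha, if_pos (hc.1 ha), jacobiSym.mod_right k (odd_of_cop ha), h,
      ← jacobiSym.mod_right k (odd_of_cop (hc.1 ha))]
  · rw [if_neg ha, if_neg (fun h => ha (hc.2 h))]

theorem ker_mul (k : ℤ) (a b : ℕ) : ker k (a * b) = ker k a * ker k b := by
  unfold ker
  by_cases ha : a.Coprime (4 * k.natAbs)
  · by_cases hb : b.Coprime (4 * k.natAbs)
    · rw [if_pos ha, if_pos hb, if_pos (Nat.Coprime.mul_left ha hb)]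
      have h1 := (odd_of_cop ha).pos
      have h2 := (odd_of_cop hb).pos
      have : NeZero a := ⟨h1.ne'⟩
      have : NeZero b := ⟨h2.ne'⟩
      exact jacobiSym.mul_right k a b
    · rw [if_neg hb, mul_zero, if_neg]
      intro h
      exact hb (Nat.Coprime.coprime_mul_left h)
  · rw [if_neg ha, zero_mul, if_neg]
    intro h
    exact ha (Nat.Coprime.coprime_mul_right h)

theorem ker_one (k : ℤ) : ker k 1 = 1 := by
  unfold ker
  rw [if_pos (Nat.coprime_one_left _), jacobiSym.one_right]

/-- the Dirichlet character -/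
noncomputable def kch (k : ℤ) [NeZero (4 * k.natAbs)] : DirichletCharacter ℂ (4 * k.natAbs) where
  toFun a := ((ker k a.val : ℤ) : ℂ)
  map_one' := by
    have h : ker k (1 : ZMod (4 * k.natAbs)).val = ker k 1 := by
      apply ker_mod
      rw [ZMod.val_one_eq_one_mod, Nat.mod_mod]
    rw [h, ker_one]
    norm_cast
  map_mul' a b := by
    have h : ker k (a * b).val = ker k (a.val * b.val) := by
      apply ker_mod
      rw [ZMod.val_mul, Nat.mod_mod]
    rw [h, ker_mul]
    push_cast
    rfl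
  map_nonunit' a ha := by
    have h : ¬ a.val.Coprime (4 * k.natAbs) := by
      intro h
      apply ha
      have := (ZMod.isUnit_iff_coprime a.val (4 * k.natAbs)).2 h
      rwa [ZMod.natCast_zmod_val] at this
    show ((ker k a.val : ℤ) : ℂ) = 0
    unfold ker
    rw [if_neg h]
    norm_cast

theorem kch_nat (k : ℤ) [NeZero (4 * k.natAbs)] (n : ℕ) :
    kch k (n : ZMod (4 * k.natAbs)) = ((ker k n : ℤ) : ℂ) := by
  show ((ker k (n : ZMod (4 * k.natAbs)).val : ℤ) : ℂ) = _
  have h : ker k (n : ZMod (4 * k.natAbs)).val = ker k n := by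
    apply ker_mod
    rw [ZMod.val_natCast, Nat.mod_mod]
  rw [h]

theorem kch_att (k : ℤ) [NeZero (4 * k.natAbs)] : Attached k (kch k) := by
  refine ⟨4 * k.natAbs + 1, fun p hp hpB => ?_⟩
  rw [kch_nat]
  unfold ker
  rw [if_pos]
  rw [Nat.Prime.coprime_iff_not_dvd hp]
  intro h
  have h1 : 0 < 4 * k.natAbs := Nat.pos_of_ne_zero (NeZero.ne _)
  have := Nat.le_of_dvd h1 h
  omega

/-- existence of a primitive attached character -/
theorem exists_prim (k : ℤ) [NeZero (4 * k.natAbs)] :
    ∃ (N : ℕ) (_ : NeZero N) (χ : DirichletCharacter ℂ N), χ.IsPrimitive ∧ Attached k χ := by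
  have hne : (kch k).conductor ≠ 0 := by
    intro h
    have := (kch k).conductor_dvd_level
    rw [h] at this
    exact (NeZero.ne (4 * k.natAbs)) (Nat.eq_zero_of_zero_dvd this)
  refine ⟨(kch k).conductor, ⟨hne⟩, (kch k).primitiveCharacter,
    (kch k).primitiveCharacter_isPrimitive, ?_⟩
  obtain ⟨B, hB⟩ := kch_att k
  refine ⟨max B (4 * k.natAbs + 1), fun p hp hpB => ?_⟩
  have h1 := hB p hp (le_trans (le_max_left _ _) hpB)
  have hc : p.Coprime (4 * k.natAbs) := by
    rw [Nat.Prime.coprime_iff_not_dvd hp]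
    intro h
    have h1 : 0 < 4 * k.natAbs := Nat.pos_of_ne_zero (NeZero.ne _)
    have := Nat.le_of_dvd h1 h
    have := le_trans (le_max_right B (4 * k.natAbs + 1)) hpB
    omega
  have h2 := (kch k).primitiveCharacter_apply_of_isCoprime (a := (p : ℤ))
    (by exact_mod_cast Nat.isCoprime_iff_coprime.2 hc)
  rw [← h1]
  exact_mod_cast h2

/-- a number which is `1` modulo `M` and a given residue modulo `p` -/
theorem exists_crt {M p : ℕ} (a : ℕ) (h : M.Coprime p) (hM : 0 < M) (hp : 0 < p) :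
    ∃ n : ℕ, 0 < n ∧ n % M = 1 % M ∧ n % p = a % p := by
  obtain ⟨n, h1, h2⟩ := Nat.chineseRemainder h 1 a
  refine ⟨n + M * p, by positivity, ?_, ?_⟩
  · rw [Nat.add_mul_mod_self_left]
    exact h1
  · rw [Nat.add_mul_mod_self_right]
    exact h2

/-- values of a primitive attached character -/
theorem val_of (k : ℤ) [NeZero (4 * k.natAbs)] {N : ℕ} [NeZero N] {χ : DirichletCharacter ℂ N}
    (hχ : χ.IsPrimitive) (ha : Attached k χ) : N ∣ 4 * k.natAbs ∧
      ∀ n : ℕ, n.Coprime (4 * k.natAbs) → χ (n : ZMod N) = ((jacobiSym k n : ℤ) : ℂ) := by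
  obtain ⟨hd, he⟩ := att_unique hχ ha (kch_att k)
  refine ⟨hd, fun n hn => ?_⟩
  have h1 := kch_nat k n
  unfold ker at h1
  rw [if_pos hn] at h1
  rw [← h1, he]
  have h2 := DirichletCharacter.changeLevel_eq_cast_of_dvd' χ hd (a := (n : ℤ))
    (by exact_mod_cast Nat.isCoprime_iff_coprime.2 hn)
  push_cast at h2
  exact h2.symm

/-- `χ n = 1` if `n = 1` modulo a multiple of the level -/
theorem one_of {N M : ℕ} (χ : DirichletCharacter ℂ N) (h : N ∣ M) {n : ℕ} (hn : n % M = 1 % M) :
    χ (n : ZMod N) = 1 := by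
  have h1 : n ≡ 1 [MOD N] := Nat.ModEq.of_dvd h hn
  rw [(ZMod.natCast_eq_natCast_iff n 1 N).2 h1, Nat.cast_one, map_one]

/-- every prime divisor of `k` divides the conductor -/
theorem dvd_of {k : ℤ} (hk : Squarefree k) [NeZero (4 * k.natAbs)] {N : ℕ} [NeZero N]
    {χ : DirichletCharacter ℂ N} (hχ : χ.IsPrimitive) (ha : Attached k χ) {p : ℕ} (hp : p.Prime)
    (hpk : (p : ℤ) ∣ k) : p ∣ N := by
  by_contra hpN
  obtain ⟨hN, hval⟩ := val_of k hχ ha
  obtain ⟨l, rfl⟩ := hpk
  have hk0 : (p : ℤ) * l ≠ 0 := hk.ne_zero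
  have hl0 : l ≠ 0 := right_ne_zero_of_mul hk0
  have hlpos : 0 < l.natAbs := Int.natAbs_pos.2 hl0
  have hnat : ((p : ℤ) * l).natAbs = p * l.natAbs := by
    rw [Int.natAbs_mul, Int.natAbs_natCast]
  have hpl : p.Coprime l.natAbs := by
    rw [Nat.Prime.coprime_iff_not_dvd hp]
    intro h
    obtain ⟨c, hc⟩ := Int.natCast_dvd.2 h
    have h1 : (p : ℤ) * p ∣ p * l := ⟨c, by rw [hc]; ring⟩
    have h2 := hk _ h1
    rw [Int.isUnit_iff_natAbs_eq, Int.natAbs_natCast] at h2
    exact hp.one_lt.ne' h2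
  rcases hp.eq_two_or_odd' with rfl | hodd
  · -- `p = 2`
    have hlodd : Odd l.natAbs := (Nat.coprime_two_left).1 hpl
    have hNl : N ∣ l.natAbs := by
      have h1 : N.Coprime 8 := by
        have : N.Coprime (2 ^ 3) := Nat.Coprime.pow_right 3
          ((Nat.Prime.coprime_iff_not_dvd Nat.prime_two).2 hpN).symm
        simpa using this
      rw [hnat] at hN
      have h2 : N ∣ 8 * l.natAbs := by
        convert hN using 1
        ring
      exact h1.dvd_of_dvd_mul_left h2
    obtain ⟨n, hn0, hn1, hn2⟩ := exists_crt (M := l.natAbs) (p := 8) 5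
      (by
        have : l.natAbs.Coprime (2 ^ 3) := Nat.Coprime.pow_right 3 hpl.symm
        simpa using this) hlpos (by norm_num)
    have hno : Odd n := by rw [Nat.odd_iff]; omega
    have hnl : n.Coprime l.natAbs := by
      rw [Nat.coprime_iff_gcd_eq_one,
        Nat.ModEq.gcd_eq (show n ≡ 1 [MOD l.natAbs] from hn1), Nat.gcd_one_left]
    have hcop : n.Coprime (4 * ((2 : ℕ) * l : ℤ).natAbs) := by
      rw [hnat]
      have h2 : n.Coprime 2 := Nat.coprime_two_right.2 hno
      have h4 : n.Coprime 4 := by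
        have : n.Coprime (2 ^ 2) := Nat.Coprime.pow_right 2 h2
        simpa using this
      exact Nat.Coprime.mul_right h4 (Nat.Coprime.mul_right h2 hnl)
    have h1 := one_of χ hNl hn1
    rw [hval n hcop] at h1
    have h3 : jacobiSym ((2 : ℕ) * l : ℤ) n = -1 := by
      rw [jacobiSym.mul_left]
      have e1 : jacobiSym ((2 : ℕ) : ℤ) n = -1 := by
        have e := jacobiSym.at_two hno
        have e2 : jacobiSym ((2 : ℕ) : ℤ) n = jacobiSym 2 n := by norm_num
        rw [e2, e, ← ZMod.natCast_mod n 8, hn2]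
        decide
      have e2 : jacobiSym l n = 1 := by
        rw [jacobiSym.mod_right l hno]
        have e3 : n % (4 * l.natAbs) = 1 % (4 * l.natAbs) := by
          have h4 : n ≡ 1 [MOD 4] := by
            show n % 4 = 1 % 4
            omega
          have h5 : Nat.Coprime 4 l.natAbs := by
            have : Nat.Coprime (2 ^ 2) l.natAbs := Nat.Coprime.pow_left 2 hpl
            simpa using this
          exact (Nat.modEq_and_modEq_iff_modEq_mul h5).1 ⟨h4, hn1⟩
        rw [e3, ← jacobiSym.mod_right l odd_one, jacobiSym.one_right]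
      rw [e1, e2]
      norm_num
    rw [h3] at h1
    norm_num at h1
  · -- `p` odd
    have hM : (4 * l.natAbs).Coprime p := by
      have h2 : Nat.Coprime 4 p := by
        have : Nat.Coprime (2 ^ 2) p := Nat.Coprime.pow_left 2 (Nat.coprime_two_left.2 hodd)
        simpa using this
      exact Nat.Coprime.mul_left h2 hpl.symm
    have hNM : N ∣ 4 * l.natAbs := by
      rw [hnat] at hN
      have h1 : N.Coprime p := ((Nat.Prime.coprime_iff_not_dvd hp).2 hpN).symm
      have h2 : N ∣ p * (4 * l.natAbs) := by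
        convert hN using 1
        ring
      exact h1.dvd_of_dvd_mul_left h2
    have : Fact p.Prime := ⟨hp⟩
    obtain ⟨a, ha⟩ := FiniteField.exists_nonsquare (F := ZMod p) (by
      rw [ZMod.ringChar_zmod_n]
      rintro rfl
      exact absurd hodd (by decide))
    have ha0 : a ≠ 0 := by
      rintro rfl
      exact ha (IsSquare.zero)
    obtain ⟨n, hn0, hn1, hn2⟩ := exists_crt a.val hM (by positivity) hp.pos
    have hnl : n.Coprime (4 * l.natAbs) := by
      rw [Nat.coprime_iff_gcd_eq_one,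
        Nat.ModEq.gcd_eq (show n ≡ 1 [MOD 4 * l.natAbs] from hn1), Nat.gcd_one_left]
    have hna : (n : ZMod p) = a := by
      rw [← ZMod.natCast_zmod_val a]
      exact (ZMod.natCast_eq_natCast_iff n a.val p).2 hn2
    have hnp : n.Coprime p := by
      rw [Nat.coprime_comm, Nat.Prime.coprime_iff_not_dvd hp, ← ZMod.natCast_eq_zero_iff, hna]
      exact ha0
    have hcop : n.Coprime (4 * ((p : ℤ) * l).natAbs) := by
      rw [hnat]
      have h1 := Nat.Coprime.mul_right hnp hnl
      convert h1 using 1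
      ring
    have hno : Odd n := odd_of_cop hcop
    have hn4 : n % 4 = 1 := by
      have h1 : n ≡ 1 [MOD 4] := Nat.ModEq.of_dvd (Dvd.intro _ rfl) hn1
      exact h1
    have h1 := one_of χ hNM hn1
    rw [hval n hcop] at h1
    have h3 : jacobiSym ((p : ℤ) * l) n = -1 := by
      rw [jacobiSym.mul_left]
      have e1 : jacobiSym (p : ℤ) n = -1 := by
        rw [jacobiSym.quadratic_reciprocity_one_mod_four' hodd hn4, ← jacobiSym.legendreSym.to_jacobiSym]
        rw [legendreSym.eq_neg_one_iff]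
        push_cast
        rw [hna]
        exact ha
      have e2 : jacobiSym l n = 1 := by
        rw [jacobiSym.mod_right l hno, hn1, ← jacobiSym.mod_right l odd_one, jacobiSym.one_right]
      rw [e1, e2]
      norm_num
    rw [h3] at h1
    norm_num at h1

/-- L4 -/
theorem core (k : ℤ) (hk : Squarefree k) :
    (∃ (N : ℕ) (_ : NeZero N) (χ : DirichletCharacter ℂ N), χ.IsPrimitive ∧ Attached k χ) ∧
    ∀ (N : ℕ) (_ : NeZero N) (χ : DirichletCharacter ℂ N), χ.IsPrimitive → Attached k χ →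
      (∀ p : ℕ, p.Prime → p ≠ 2 → χ (p : ZMod N) = ((jacobiSym k p : ℤ) : ℂ)) ∧
      k.natAbs ≤ N ∧ N ≤ 4 * k.natAbs := by
  have hk0 : 0 < k.natAbs := Int.natAbs_pos.2 hk.ne_zero
  have : NeZero (4 * k.natAbs) := ⟨by omega⟩
  refine ⟨exists_prim k, fun N hN χ hχ ha => ?_⟩
  obtain ⟨hd, hval⟩ := val_of k hχ ha
  have hdv : ∀ p : ℕ, p.Prime → (p : ℤ) ∣ k → p ∣ N := fun p hp h => dvd_of hk hχ ha hp h
  refine ⟨fun p hp hp2 => ?_, ?_, Nat.le_of_dvd (by omega) hd⟩
  · by_cases h : p ∣ k.natAbs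
    · have hz : (p : ℤ) ∣ k := Int.natCast_dvd.2 h
      have hpN := hdv p hp hz
      have h1 : χ (p : ZMod N) = 0 := by
        apply MulChar.map_nonunit
        rw [ZMod.isUnit_iff_coprime]
        intro hc
        exact hp.one_lt.ne' (Nat.eq_one_of_dvd_coprimes hc dvd_rfl hpN)
      have h2 : jacobiSym k p = 0 := by
        have : NeZero p := ⟨hp.ne_zero⟩
        rw [jacobiSym.eq_zero_iff_not_coprime]
        intro hg
        have h3 : (p : ℤ) ∣ (k.gcd p : ℤ) := Int.dvd_coe_gcd hz dvd_rfl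
        rw [hg] at h3
        have := Int.natCast_dvd_natCast.1 h3
        exact hp.one_lt.ne' (Nat.dvd_one.1 this)
      rw [h1, h2]
      norm_cast
    · apply hval
      rw [Nat.Prime.coprime_iff_not_dvd hp]
      intro h1
      rcases (Nat.Prime.dvd_mul hp).1 h1 with h2 | h2
      · have h3 : p ∣ 2 ^ 2 := by simpa using h2
        exact hp2 ((Nat.prime_dvd_prime_iff_eq hp Nat.prime_two).1 (hp.dvd_of_dvd_pow h3))
      · exact h h2
  · apply Nat.le_of_dvd (Nat.pos_of_ne_zero hN.out)
    have hs : Squarefree k.natAbs := Int.squarefree_natAbs.2 hk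
    rw [← Nat.prod_primeFactors_of_squarefree hs]
    apply Finset.prod_primes_dvd
    · intro p hp
      exact (Nat.prime_of_mem_primeFactors hp).prime
    · intro p hp
      exact hdv p (Nat.prime_of_mem_primeFactors hp)
        (Int.natCast_dvd.2 (Nat.dvd_of_mem_primeFactors hp))

end Pool.Agent.N429.QFChar
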