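import Mathlib
import Pool.Agent.N795.ST.Stm

/-!
# Project ST, module NMT: few cycles of intermediate length
-/

set_option autoImplicit false

namespace Pool.Agent.N795.ST

open Finset Equiv
open Pool.Agent.W805.LR (len cnt)
open Pool.Agent.TH268.PD (law mas TT)

namespace N429

/-- the mean of the Poisson law -/
theorem poi_one (m : ℝ) (hm : 0 ≤ m) (I : ℕ) :
    ∑ i ∈ range I, Real.exp (-m) * m ^ i / (i.factorial : ℝ) * i ≤ m := by
  cases I with
  | zero => simpa using hm
  | succ I =>
    rw [sum_range_succ']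
    have h1 : ∀ i ∈ range I, Real.exp (-m) * m ^ (i + 1) / ((i + 1).factorial : ℝ) *
        ((i + 1 : ℕ) : ℝ) = m * Real.exp (-m) * (m ^ i / (i.factorial : ℝ)) := by
      intro i _
      rw [Nat.factorial_succ]
      push_cast
      have h2 : (i.factorial : ℝ) ≠ 0 := by positivity
      have h3 : ((i : ℝ) + 1) ≠ 0 := by positivity
      field_simp
      ring
    rw [sum_congr rfl h1, ← mul_sum]
    have h2 := Real.sum_le_exp_of_nonneg hm I
    have h3 : m * Real.exp (-m) * ∑ i ∈ range I, m ^ i / (i.factorial : ℝ) ≤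
        m * Real.exp (-m) * Real.exp m :=
      mul_le_mul_of_nonneg_left h2 (by positivity)
    have h4 : m * Real.exp (-m) * Real.exp m = m := by
      rw [mul_assoc, ← Real.exp_add, neg_add_cancel, Real.exp_zero, mul_one]
    rw [h4] at h3
    simpa using h3

/-- a binomial thinning of the Poisson law -/
theorem poi_choose (m x y : ℝ) (hm : 0 ≤ m) (hx : 0 ≤ x) (hy : 0 ≤ y) (q I : ℕ) :
    ∑ i ∈ range I, Real.exp (-m) * m ^ i / (i.factorial : ℝ) *
      ((i.choose q : ℝ) * x ^ q * y ^ (i - q)) ≤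
      (m * x) ^ q / (q.factorial : ℝ) * Real.exp (-(m * (1 - y))) := by
  have h1 : ∑ i ∈ range I, Real.exp (-m) * m ^ i / (i.factorial : ℝ) *
      ((i.choose q : ℝ) * x ^ q * y ^ (i - q)) ≤
      ∑ i ∈ range (q + I), Real.exp (-m) * m ^ i / (i.factorial : ℝ) *
      ((i.choose q : ℝ) * x ^ q * y ^ (i - q)) := by
    refine sum_le_sum_of_subset_of_nonneg ?_ ?_
    · intro i hi
      rw [mem_range] at hi ⊢
      omega
    · intro i _ _
      positivity
  refine h1.trans ?_
  rw [sum_range_add]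
  have h2 : ∑ i ∈ range q, Real.exp (-m) * m ^ i / (i.factorial : ℝ) *
      ((i.choose q : ℝ) * x ^ q * y ^ (i - q)) = 0 := by
    refine sum_eq_zero fun i hi => ?_
    rw [Nat.choose_eq_zero_of_lt (mem_range.1 hi)]
    simp
  have h3 : ∀ j ∈ range I, Real.exp (-m) * m ^ (q + j) / ((q + j).factorial : ℝ) *
      (((q + j).choose q : ℝ) * x ^ q * y ^ (q + j - q)) =
      ((m * x) ^ q / (q.factorial : ℝ) * Real.exp (-m)) * ((m * y) ^ j / (j.factorial : ℝ)) := by
    intro j _
    have h4 : (((q + j).choose q : ℕ) : ℝ) * (q.factorial : ℝ) * (j.factorial : ℝ) =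
        ((q + j).factorial : ℝ) := by
      have h4' := Nat.choose_mul_factorial_mul_factorial (Nat.le_add_right q j)
      rw [Nat.add_sub_cancel_left] at h4'
      exact_mod_cast h4'
    have h5 : (q.factorial : ℝ) ≠ 0 := by positivity
    have h6 : (j.factorial : ℝ) ≠ 0 := by positivity
    have h7 : ((q + j).factorial : ℝ) ≠ 0 := by positivity
    rw [Nat.add_sub_cancel_left, ← h4, mul_pow, mul_pow, pow_add]
    rw [← h4] at h7
    have h8 : ((q + j).choose q : ℝ) ≠ 0 := by
      intro h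
      apply h7
      rw [h]
      ring
    field_simp
  rw [h2, zero_add, sum_congr rfl h3, ← mul_sum]
  have h4 := Real.sum_le_exp_of_nonneg (mul_nonneg hm hy) I
  have h5 : (m * x) ^ q / (q.factorial : ℝ) * Real.exp (-m) *
      ∑ i ∈ range I, (m * y) ^ i / (i.factorial : ℝ) ≤
      (m * x) ^ q / (q.factorial : ℝ) * Real.exp (-m) * Real.exp (m * y) :=
    mul_le_mul_of_nonneg_left h4 (by positivity)
  refine h5.trans (le_of_eq ?_)
  rw [mul_assoc, ← Real.exp_add]
  congr 2
  ring

section

variable {V : Type} [Fintype V] [DecidableEq V]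

theorem ntup_nonneg (r : ℕ) (g : Perm V) (U : Finset V) : 0 ≤ ntup r g U := by
  unfold ntup
  exact sum_nonneg fun z _ => by split_ifs <;> norm_num

theorem sum_ntup (r : ℕ) (g : Perm V) :
    ∑ U : Finset V, ntup r g U ≤ (Fintype.card V : ℝ) ^ r := by
  classical
  unfold ntup
  rw [sum_comm]
  have h1 : ∀ z ∈ (univ : Finset (Fin r → V)), ∑ U : Finset V, (open Classical in
      if (∀ i j, i ≠ j → ¬ g.SameCycle (z i) (z j)) ∧ (∀ w, w ∈ U ↔ ∃ i, g.SameCycle (z i) w)
        then (1 : ℝ) else 0) ≤ 1 := by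
    intro z _
    have h2 : ∀ U ∈ (univ : Finset (Finset V)), (open Classical in
      if (∀ i j, i ≠ j → ¬ g.SameCycle (z i) (z j)) ∧ (∀ w, w ∈ U ↔ ∃ i, g.SameCycle (z i) w)
        then (1 : ℝ) else 0) ≤
        if U = univ.filter (fun w => ∃ i, g.SameCycle (z i) w) then (1 : ℝ) else 0 := by
      intro U _
      split_ifs with h3 h4 h4
      · exact le_rfl
      · exfalso
        apply h4
        ext w
        rw [mem_filter, h3.2 w]
        simp
      · norm_num
      · exact le_rfl
    refine (sum_le_sum h2).trans ?_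
    rw [sum_ite_eq']
    simp
  refine (sum_le_sum h1).trans ?_
  rw [sum_const, card_univ, Fintype.card_fun, Fintype.card_fin]
  simp

theorem win_eq (k K : ℝ) (hk : k ≤ K) (g : Perm V) :
    win k K g = (∑ v, (if k ≤ len g v ∧ len g v < K then (1 : ℝ) else 0)) / Fintype.card V := by
  classical
  unfold win mas cnt
  rw [← sub_div, ← sum_sub_distrib]
  congr 1
  refine sum_congr rfl fun v _ => ?_
  by_cases h1 : k ≤ len g v
  · by_cases h2 : K ≤ len g v
    · rw [if_pos h1, if_pos h2, if_neg fun h => absurd h2 (not_le.2 h.2)]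
      norm_num
    · rw [if_pos h1, if_neg h2, if_pos ⟨h1, not_le.1 h2⟩]
      norm_num
  · rw [if_neg h1, if_neg fun h => h1 (hk.trans h), if_neg fun h => h1 h.1]
    norm_num

theorem win_le_one (k K : ℝ) (g : Perm V) : win k K g ≤ 1 := by
  unfold win
  have h1 := Pool.Agent.TH268.PD.mas_le_one k g
  have h2 := Pool.Agent.TH268.PD.mas_nonneg K g
  linarith

/-- the bound for one permutation -/
theorem main_g (hC : Closed) [Nonempty V] (g : Perm V) {c t k : ℝ} (hc : 0 < c) (ht : 0 < t)
    (hk : 0 < k) (h2 : t * c * k ^ 2 / Fintype.card V ≤ 1) {B : ℕ → ℝ} (hBs : Summable B)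
    (hB0 : ∀ q, 0 ≤ B q)
    (hB : ∀ (q : ℕ) (y : ℝ), t * c * k ≤ y →
      y ^ q * Real.exp (-y) / (q.factorial * (q + 1)) ≤ B q)
    {f : ℝ → ℝ} (hf0 : ∀ x, 0 ≤ f x) (hf1 : ∀ x, f x ≤ 1)
    (hf : ∀ x, f x ≠ 0 → k ≤ x ∧ x ≤ 2 * k) {m : ℝ} (hm : m = t * c * Fintype.card V / 2) (I : ℕ) :
    ∑ i ∈ range I, Real.exp (-m) * m ^ i / (i.factorial : ℝ) *
      ((∑ U : Finset V, (U.card : ℝ) * f U.card * pw i g U) / Fintype.card V) ≤
      Real.exp 2 * ∑' q, B q := by
  have hn : (0 : ℝ) < Fintype.card V := by exact_mod_cast Fintype.card_pos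
  set n : ℝ := (Fintype.card V : ℝ) with hndef
  have hm0 : 0 ≤ m := by rw [hm]; positivity
  -- the bound for one `U`
  have key : ∀ U : Finset V, f U.card * ∑ i ∈ range I, Real.exp (-m) * m ^ i / (i.factorial : ℝ) *
      ((U.card : ℝ) * pw i g U) ≤ Real.exp 2 * ∑ q ∈ range I, B q * (ntup (q + 1) g U / n ^ q) := by
    intro U
    have hR : 0 ≤ Real.exp 2 * ∑ q ∈ range I, B q * (ntup (q + 1) g U / n ^ q) := by
      refine mul_nonneg (Real.exp_pos _).le (sum_nonneg fun q _ => mul_nonneg (hB0 q) ?_)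
      exact div_nonneg (ntup_nonneg _ _ _) (by positivity)
    by_cases hfU : f U.card = 0
    · rw [hfU, zero_mul]
      exact hR
    obtain ⟨hU1, hU2⟩ := hf _ hfU
    have hS : ∑ i ∈ range I, Real.exp (-m) * m ^ i / (i.factorial : ℝ) *
        ((U.card : ℝ) * pw i g U) ≤
        Real.exp 2 * ∑ q ∈ range I, B q * (ntup (q + 1) g U / n ^ q) := by
      have e1 : ∀ i ∈ range I, Real.exp (-m) * m ^ i / (i.factorial : ℝ) *
          ((U.card : ℝ) * pw i g U) = ∑ q ∈ range I, (ntup (q + 1) g U / (q + 1)) *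
            (Real.exp (-m) * m ^ i / (i.factorial : ℝ) *
              ((i.choose q : ℝ) * (2 * U.card / n ^ 2) ^ q * ((1 - U.card / n) ^ 2) ^ (i - q))) := by
        intro i hi
        rw [hC V i g U, mul_sum]
        have hsub : range (i + 1) ⊆ range I := by
          intro q hq
          rw [mem_range] at hq hi ⊢
          omega
        rw [← sum_subset hsub]
        · refine sum_congr rfl fun q _ => ?_
          rw [pow_mul]
          ring
        · intro q _ hq
          have hq' : i < q := by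
            rw [mem_range] at hq
            omega
          rw [Nat.choose_eq_zero_of_lt hq']
          simp
      rw [sum_congr rfl e1, sum_comm, mul_sum]
      refine sum_le_sum fun q _ => ?_
      rw [← mul_sum]
      have e2 := poi_choose m (2 * U.card / n ^ 2) ((1 - U.card / n) ^ 2) hm0 (by positivity)
        (by positivity) q I
      have e3 : m * (2 * U.card / n ^ 2) = (t * c * U.card) / n := by
        rw [hm]
        field_simp
      have e4 : Real.exp (-(m * (1 - (1 - U.card / n) ^ 2))) ≤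
          Real.exp 2 * Real.exp (-(t * c * U.card)) := by
        rw [← Real.exp_add]
        apply Real.exp_le_exp.2
        have e5 : m * (1 - (1 - U.card / n) ^ 2) = t * c * U.card - t * c * (U.card : ℝ) ^ 2 / (2 * n)
            := by
          rw [hm]
          field_simp
          ring
        have e6 : t * c * (U.card : ℝ) ^ 2 / (2 * n) ≤ 2 := by
          have e7 : (U.card : ℝ) ^ 2 ≤ (2 * k) ^ 2 := by
            apply pow_le_pow_left₀ (by positivity) hU2
          have e8 : t * c * (U.card : ℝ) ^ 2 / (2 * n) ≤ t * c * (2 * k) ^ 2 / (2 * n) := by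
            gcongr
          have e9 : t * c * (2 * k) ^ 2 / (2 * n) = 2 * (t * c * k ^ 2 / n) := by
            ring
          rw [e9] at e8
          linarith
        rw [e5]
        linarith
      rw [e3] at e2
      have hnt := ntup_nonneg (q + 1) g U
      have hq1 : (0 : ℝ) < (q : ℝ) + 1 := by positivity
      calc ntup (q + 1) g U / (q + 1) * ∑ i ∈ range I, Real.exp (-m) * m ^ i / (i.factorial : ℝ) *
            ((i.choose q : ℝ) * (2 * U.card / n ^ 2) ^ q * ((1 - U.card / n) ^ 2) ^ (i - q))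
          ≤ ntup (q + 1) g U / (q + 1) * ((t * c * U.card / n) ^ q / (q.factorial : ℝ) *
            (Real.exp 2 * Real.exp (-(t * c * U.card)))) := by
            refine mul_le_mul_of_nonneg_left ?_ (div_nonneg hnt hq1.le)
            refine e2.trans (mul_le_mul_of_nonneg_left e4 ?_)
            positivity
        _ = Real.exp 2 * (((t * c * U.card) ^ q * Real.exp (-(t * c * U.card)) /
            (q.factorial * (q + 1))) * (ntup (q + 1) g U / n ^ q)) := by
            rw [div_pow]
            have h5 : (q.factorial : ℝ) ≠ 0 := by positivity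
            field_simp
        _ ≤ Real.exp 2 * (B q * (ntup (q + 1) g U / n ^ q)) := by
            refine mul_le_mul_of_nonneg_left ?_ (Real.exp_pos _).le
            refine mul_le_mul_of_nonneg_right ?_ (div_nonneg hnt (by positivity))
            apply hB
            gcongr
    have hp0 : 0 ≤ f U.card := hf0 _
    calc f U.card * ∑ i ∈ range I, Real.exp (-m) * m ^ i / (i.factorial : ℝ) *
          ((U.card : ℝ) * pw i g U)
        ≤ f U.card * (Real.exp 2 * ∑ q ∈ range I, B q * (ntup (q + 1) g U / n ^ q)) :=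
          mul_le_mul_of_nonneg_left hS hp0
      _ ≤ 1 * (Real.exp 2 * ∑ q ∈ range I, B q * (ntup (q + 1) g U / n ^ q)) :=
          mul_le_mul_of_nonneg_right (hf1 _) hR
      _ = _ := one_mul _
  have e1 : ∑ i ∈ range I, Real.exp (-m) * m ^ i / (i.factorial : ℝ) *
      ((∑ U : Finset V, (U.card : ℝ) * f U.card * pw i g U) / n) =
      (∑ U : Finset V, f U.card * ∑ i ∈ range I, Real.exp (-m) * m ^ i / (i.factorial : ℝ) *
      ((U.card : ℝ) * pw i g U)) / n := by
    rw [eq_div_iff hn.ne', sum_mul]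
    simp only [mul_sum]
    rw [sum_comm]
    refine sum_congr rfl fun i _ => ?_
    rw [mul_assoc, div_mul_cancel₀ _ hn.ne', mul_sum]
    refine sum_congr rfl fun U _ => ?_
    ring
  rw [e1, div_le_iff₀ hn]
  refine (sum_le_sum fun U _ => key U).trans ?_
  rw [← mul_sum, sum_comm]
  have e2 : ∀ q ∈ range I, ∑ U : Finset V, B q * (ntup (q + 1) g U / n ^ q) ≤ B q * n := by
    intro q _
    rw [← mul_sum, ← sum_div]
    refine mul_le_mul_of_nonneg_left ?_ (hB0 q)
    rw [div_le_iff₀ (by positivity)]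
    refine (sum_ntup (q + 1) g).trans (le_of_eq ?_)
    rw [pow_succ]
    ring
  have e3 : ∑ q ∈ range I, ∑ U : Finset V, B q * (ntup (q + 1) g U / n ^ q) ≤ (∑' q, B q) * n := by
    refine (sum_le_sum e2).trans ?_
    rw [← sum_mul]
    exact mul_le_mul_of_nonneg_right (hBs.sum_le_tsum _ fun q _ => hB0 q) hn.le
  calc Real.exp 2 * ∑ q ∈ range I, ∑ U : Finset V, B q * (ntup (q + 1) g U / n ^ q)
      ≤ Real.exp 2 * ((∑' q, B q) * n) := mul_le_mul_of_nonneg_left e3 (Real.exp_pos _).le
    _ = _ := by ring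

end

end N429

open N429 in
theorem nmt (hP : Pure) (hC : Closed) (hS : PoiSum) : Nmt := by
  obtain ⟨C0, hC0, hB⟩ := hS
  refine ⟨Real.exp 2 * C0 + 4 + 1, by positivity, ?_⟩
  intro V _ _ _ J c t k hJ hc ht hk
  have hn : (0 : ℝ) < Fintype.card V := by exact_mod_cast Fintype.card_pos
  -- the law
  have hlaw : ∀ J' : V → V → ℝ, (∀ x y, 0 ≤ J' x y) → (∀ g, 0 ≤ law J' t g) ∧
      ∑ g, law J' t g = 1 := by
    intro J' hJ'
    have hm := Pool.Agent.W29.LR.CV.stirMass_nonneg J' hJ' t ht.le
    have hZ := Pool.Agent.W805.LR.sum_mass J' t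
    have hZ0 : 0 < ∑ h, Pool.Agent.W805.LR.stirMass J' t h := by rw [hZ]; exact Real.exp_pos _
    refine ⟨fun g => div_nonneg (hm g) hZ0.le, ?_⟩
    unfold law
    rw [← Finset.sum_div, div_self hZ0.ne']
  have hJ' : ∀ x y : V, 0 ≤ J x y + if x ≠ y then c / Fintype.card V else 0 := by
    intro x y
    have h1 := hJ x y
    split_ifs
    · positivity
    · linarith
  obtain ⟨hl0, hl1⟩ := hlaw _ hJ'
  obtain ⟨hj0, hj1⟩ := hlaw _ hJ
  have hsq : 0 < Real.sqrt (t * c * k) := Real.sqrt_pos.2 (by positivity)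
  have htriv : ∑ g, law (fun x y => J x y + if x ≠ y then c / Fintype.card V else 0) t g *
      win k (2 * k) g ≤ 1 := by
    rw [← hl1]
    refine sum_le_sum fun g _ => ?_
    have h1 := mul_le_mul_of_nonneg_left (win_le_one k (2 * k) g) (hl0 g)
    rwa [mul_one] at h1
  have hC1 : 1 ≤ Real.exp 2 * C0 + 4 + 1 := by
    have h1 : 0 < Real.exp 2 * C0 := by positivity
    linarith
  have hC2 : (0 : ℝ) < Real.exp 2 * C0 + 4 + 1 := by linarith
  have hterm1 : 0 < 1 / Real.sqrt (t * c * k) := by positivity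
  have hterm2 : 0 < t * c * k ^ 2 / Fintype.card V := by positivity
  by_cases hμ : 1 ≤ t * c * k
  swap
  · refine htriv.trans ?_
    have h1 : Real.sqrt (t * c * k) ≤ 1 := by
      rw [← Real.sqrt_one]
      exact Real.sqrt_le_sqrt (by linarith)
    have h2 : 1 ≤ 1 / Real.sqrt (t * c * k) := by
      rw [le_div_iff₀ hsq]
      linarith
    have h3 : 1 ≤ 1 / Real.sqrt (t * c * k) + t * c * k ^ 2 / Fintype.card V := by linarith
    calc (1 : ℝ) = 1 * 1 := by ring
      _ ≤ _ := mul_le_mul hC1 h3 (by norm_num) hC2.le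
  by_cases h2 : t * c * k ^ 2 / Fintype.card V ≤ 1
  swap
  · refine htriv.trans ?_
    have h3 : 1 ≤ 1 / Real.sqrt (t * c * k) + t * c * k ^ 2 / Fintype.card V := by
      have := not_le.1 h2
      linarith
    calc (1 : ℝ) = 1 * 1 := by ring
      _ ≤ _ := mul_le_mul hC1 h3 (by norm_num) hC2.le
  obtain ⟨B, hBs, hBt, hBq⟩ := hB _ hμ
  have hB0 : ∀ q, 0 ≤ B q := fun q => le_trans (by positivity) (hBq q _ le_rfl)
  obtain ⟨f, hf⟩ : ∃ f : ℝ → ℝ, f = fun x => if k ≤ x ∧ x < 2 * k then 1 else 0 := ⟨_, rfl⟩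
  have hf0 : ∀ x, 0 ≤ f x := by
    intro x
    rw [hf]
    dsimp only
    split_ifs <;> norm_num
  have hf1 : ∀ x, f x ≤ 1 := by
    intro x
    rw [hf]
    dsimp only
    split_ifs <;> norm_num
  have hf2 : ∀ x, f x ≠ 0 → k ≤ x ∧ x ≤ 2 * k := by
    intro x hx
    rw [hf] at hx
    dsimp only at hx
    split_ifs at hx with h
    · exact ⟨h.1, h.2.le⟩
    · exact absurd rfl hx
  have hW : (fun g : Perm V => win k (2 * k) g) =
      fun g => (∑ v, f (len g v)) / Fintype.card V := by
    funext g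
    rw [win_eq k (2 * k) (by linarith), hf]
  have hpure := fun i g => hP V f (2 * k) hf0 hf1 (by positivity)
    (fun x hx => by
      by_contra h
      exact absurd (hf2 x h).2 (not_le.2 hx)) i g
  rw [← hW] at hpure
  have hpo := Pool.Agent.TH268.PD.law_poisson J (c / Fintype.card V) t ht.le (by positivity) hJ
    (fun g => win k (2 * k) g)
  obtain ⟨m, hm⟩ : ∃ m, m = t * (c / Fintype.card V) * (Fintype.card V : ℝ) ^ 2 / 2 := ⟨_, rfl⟩
  rw [← hm] at hpo
  have hm' : m = t * c * Fintype.card V / 2 := by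
    rw [hm]
    field_simp
  have hm0 : 0 ≤ m := by rw [hm']; positivity
  refine le_of_tendsto' hpo.tendsto_sum_nat fun I => ?_
  have hPi : ∀ i : ℕ, 0 ≤ Real.exp (-m) * m ^ i / (i.factorial : ℝ) := fun i => by positivity
  have s1 : ∑ i ∈ range I, Real.exp (-m) * m ^ i / (i.factorial : ℝ) *
      ∑ g, law J t g * (TT^[i] fun g => win k (2 * k) g) g ≤
      ∑ g, law J t g * (∑ i ∈ range I, Real.exp (-m) * m ^ i / (i.factorial : ℝ) *
        ((∑ U : Finset V, (U.card : ℝ) * f U.card * pw i g U) / Fintype.card V)) +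
      (2 * (2 * k) ^ 2 / (Fintype.card V : ℝ) ^ 2) *
        ∑ i ∈ range I, Real.exp (-m) * m ^ i / (i.factorial : ℝ) * i := by
    have s2 : ∀ i ∈ range I, Real.exp (-m) * m ^ i / (i.factorial : ℝ) *
        ∑ g, law J t g * (TT^[i] fun g => win k (2 * k) g) g ≤
        (∑ g, law J t g * (Real.exp (-m) * m ^ i / (i.factorial : ℝ) *
          ((∑ U : Finset V, (U.card : ℝ) * f U.card * pw i g U) / Fintype.card V))) +
        (2 * (2 * k) ^ 2 / (Fintype.card V : ℝ) ^ 2) *
          (Real.exp (-m) * m ^ i / (i.factorial : ℝ) * i) := by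
      intro i _
      have s3 : ∑ g, law J t g * (TT^[i] fun g => win k (2 * k) g) g ≤
          ∑ g, law J t g * ((∑ U : Finset V, (U.card : ℝ) * f U.card * pw i g U) /
            Fintype.card V + i * (2 * (2 * k) ^ 2 / (Fintype.card V : ℝ) ^ 2)) :=
        sum_le_sum fun g _ => mul_le_mul_of_nonneg_left (hpure i g) (hj0 g)
      refine (mul_le_mul_of_nonneg_left s3 (hPi i)).trans (le_of_eq ?_)
      simp only [mul_add, sum_add_distrib, mul_sum]
      congr 1
      · refine sum_congr rfl fun g _ => ?_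
        ring
      · have s4 : ∑ g, Real.exp (-m) * m ^ i / (i.factorial : ℝ) *
            (law J t g * (i * (2 * (2 * k) ^ 2 / (Fintype.card V : ℝ) ^ 2))) =
            (∑ g, law J t g) * (Real.exp (-m) * m ^ i / (i.factorial : ℝ) *
              (i * (2 * (2 * k) ^ 2 / (Fintype.card V : ℝ) ^ 2))) := by
          rw [sum_mul]
          exact sum_congr rfl fun g _ => by ring
        rw [s4, hj1]
        ring
    refine (sum_le_sum s2).trans (le_of_eq ?_)
    rw [sum_add_distrib, sum_comm, ← mul_sum]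
    congr 1
    refine sum_congr rfl fun g _ => ?_
    rw [mul_sum]
  refine s1.trans ?_
  have s5 : ∑ g, law J t g * (∑ i ∈ range I, Real.exp (-m) * m ^ i / (i.factorial : ℝ) *
        ((∑ U : Finset V, (U.card : ℝ) * f U.card * pw i g U) / Fintype.card V)) ≤
      Real.exp 2 * ∑' q, B q := by
    refine (sum_le_sum fun g _ => mul_le_mul_of_nonneg_left
      (main_g hC g hc ht hk h2 hBs hB0 hBq hf0 hf1 hf2 hm' I) (hj0 g)).trans (le_of_eq ?_)
    rw [← sum_mul, hj1, one_mul]
  have s6 := poi_one m hm0 I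
  have s7 : (2 * (2 * k) ^ 2 / (Fintype.card V : ℝ) ^ 2) *
        ∑ i ∈ range I, Real.exp (-m) * m ^ i / (i.factorial : ℝ) * i ≤
        4 * (t * c * k ^ 2 / Fintype.card V) := by
    refine (mul_le_mul_of_nonneg_left s6 (by positivity)).trans (le_of_eq ?_)
    rw [hm']
    field_simp
    ring
  have s8 : Real.exp 2 * ∑' q, B q ≤ Real.exp 2 * C0 * (1 / Real.sqrt (t * c * k)) := by
    refine (mul_le_mul_of_nonneg_left hBt (Real.exp_pos _).le).trans (le_of_eq ?_)
    ring
  have h9 : 0 ≤ Real.exp 2 * C0 * (t * c * k ^ 2 / Fintype.card V) := by positivity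
  calc _ ≤ Real.exp 2 * C0 * (1 / Real.sqrt (t * c * k)) +
        4 * (t * c * k ^ 2 / Fintype.card V) := add_le_add (s5.trans s8) s7
    _ ≤ _ := by
      have : (Real.exp 2 * C0 + 4 + 1) * (1 / Real.sqrt (t * c * k) +
          t * c * k ^ 2 / Fintype.card V) = Real.exp 2 * C0 * (1 / Real.sqrt (t * c * k)) +
          4 * (t * c * k ^ 2 / Fintype.card V) +
          (5 * (1 / Real.sqrt (t * c * k)) +
            Real.exp 2 * C0 * (t * c * k ^ 2 / Fintype.card V) + t * c * k ^ 2 / Fintype.card V) := by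
        ring
      rw [this]
      linarith

end Pool.Agent.N795.ST
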